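import Mathlib

set_option autoImplicit false

namespace Pool.Agent.D0H98.SM

open Matrix Polynomial

universe u

/-- A matrix of finite order over an algebraically closed field of characteristic zero is diagonalizable. -/
theorem exists_diag (K : Type u) [Field K] [IsAlgClosed K] [CharZero K] (n : ℕ)
    (A : Matrix (Fin n) (Fin n) K) (M : ℕ) (hM : 0 < M) (hA : A ^ M = 1) :
    ∃ (P P' : Matrix (Fin n) (Fin n) K) (lam : Fin n → K), P * P' = 1 ∧ P' * P = 1 ∧
      A * P = P * Matrix.diagonal lam := by
  classical
  set f : Module.End K (Fin n → K) := Matrix.toLin' A with hf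
  have hfM : f ^ M = 1 := by
    rw [hf, ← Matrix.toLin'_pow, hA, Matrix.toLin'_one]
    rfl
  have hsq : Squarefree (X ^ M - 1 : K[X]) := by
    have h1 : (X ^ M - 1 : K[X]).Separable := by
      rw [Polynomial.X_pow_sub_one_separable_iff]
      exact_mod_cast hM.ne'
    exact h1.squarefree
  have hss : f.IsSemisimple := by
    refine Module.End.isSemisimple_of_squarefree_aeval_eq_zero hsq ?_
    simp [hfM]
  have htop := hss.iSup_eigenspace_eq_top
  rw [Submodule.iSup_eq_span] at htop
  set b0 := Module.Basis.ofSpan htop.ge with hb0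
  have hfin : Finite _ := Module.Finite.finite_basis b0
  have _ := Fintype.ofFinite ((linearIndepOn_empty K id).extend (Set.empty_subset (⋃ i, (f.eigenspace i : Set (Fin n → K)))))
  have hcard : Fintype.card ((linearIndepOn_empty K id).extend (Set.empty_subset (⋃ i, (f.eigenspace i : Set (Fin n → K))))) = n := by
    rw [← Module.finrank_eq_card_basis b0, Module.finrank_fin_fun]
  set b := b0.reindex (Fintype.equivFinOfCardEq hcard) with hb
  have hbm : ∀ i, ∃ μ, b i ∈ f.eigenspace μ := by
    intro i
    have h1 : b i ∈ Set.range b0 := by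
      rw [hb, Module.Basis.reindex_apply]
      exact ⟨_, rfl⟩
    have h2 := Module.Basis.ofSpan_subset htop.ge h1
    rw [Set.mem_iUnion] at h2
    exact h2
  choose lam hlam using hbm
  refine ⟨(Pi.basisFun K (Fin n)).toMatrix b, b.toMatrix (Pi.basisFun K (Fin n)), lam,
    Module.Basis.toMatrix_mul_toMatrix_flip _ _, Module.Basis.toMatrix_mul_toMatrix_flip _ _, ?_⟩
  ext i j
  rw [Matrix.mul_diagonal]
  have h1 := hlam j
  rw [Module.End.mem_eigenspace_iff] at h1
  have h2 := congrFun h1 i
  rw [hf, Matrix.toLin'_apply] at h2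
  simp only [Matrix.mul_apply, Module.Basis.toMatrix_apply, Pi.basisFun_repr]
  rw [Matrix.mulVec, dotProduct] at h2
  rw [h2]
  simp [mul_comm]

end Pool.Agent.D0H98.SM
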