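import Pool.Agent.D0H90.SM.Stm
import Pool.Agent.D0H98.SM.Diag

/-! `CODIM` of `Pool.Agent.D0H90.SM.Stm`. -/

set_option autoImplicit false

namespace Pool.Agent.D0H98.SM

open Matrix Pool.Agent.D0H90.SM

universe u

section
variable {K : Type u} [Field K] {n d : ℕ}

theorem ev_add (v w : Cf n d → K) (x : Fin n → K) : ev (v + w) x = ev v x + ev w x := by
  funext i
  simp [ev, add_mul, Finset.sum_add_distrib]

theorem ev_smul (r : K) (v : Cf n d → K) (x : Fin n → K) : ev (r • v) x = r • ev v x := by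
  funext i
  simp [ev, mul_assoc, Finset.mul_sum]

theorem ev_zero (x : Fin n → K) : ev (0 : Cf n d → K) x = 0 := by
  funext i
  simp [ev]

theorem dmon_add (m : Ex n d) (x y z : Fin n → K) : dmon m x (y + z) = dmon m x y + dmon m x z := by
  simp [dmon, mul_add, add_mul, Finset.sum_add_distrib]

theorem dmon_smul (m : Ex n d) (r : K) (x y : Fin n → K) : dmon m x (r • y) = r * dmon m x y := by
  simp only [dmon, Pi.smul_apply, smul_eq_mul, Finset.mul_sum]
  exact Finset.sum_congr rfl fun l _ => by ring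

theorem dev_add (c : Cf n d → K) (x y z : Fin n → K) : dev c x (y + z) = dev c x y + dev c x z := by
  funext i
  simp [dev, dmon_add, mul_add, Finset.sum_add_distrib]

theorem dev_smul (c : Cf n d → K) (r : K) (x y : Fin n → K) : dev c x (r • y) = r • dev c x y := by
  funext i
  simp only [dev, dmon_smul, Pi.smul_apply, smul_eq_mul, Finset.mul_sum]
  exact Finset.sum_congr rfl fun l _ => by ring

theorem dev_zero (c : Cf n d → K) (x : Fin n → K) : dev c x 0 = 0 := by
  have := dev_smul c 0 x 0
  simpa using this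

theorem mon_mul (m : Ex n d) (a x : Fin n → K) : mon m (fun l => a l * x l) = mon m a * mon m x := by
  simp [mon, mul_pow, Finset.prod_mul_distrib]

/-- the tangent vector `ξ_B` of the orbit -/
def E (c : Cf n d → K) (B : Matrix (Fin n) (Fin n) K) (x : Fin n → K) : Fin n → K :=
  dev c x (B *ᵥ x) - B *ᵥ ev c x

theorem E_add (c : Cf n d → K) (B B' : Matrix (Fin n) (Fin n) K) (x : Fin n → K) :
    E c (B + B') x = E c B x + E c B' x := by
  unfold E
  rw [Matrix.add_mulVec, Matrix.add_mulVec, dev_add]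
  abel

theorem E_smul (c : Cf n d → K) (r : K) (B : Matrix (Fin n) (Fin n) K) (x : Fin n → K) :
    E c (r • B) x = r • E c B x := by
  unfold E
  rw [Matrix.smul_mulVec, Matrix.smul_mulVec, dev_smul, smul_sub]

theorem E_zero (c : Cf n d → K) (x : Fin n → K) : E c 0 x = 0 := by
  unfold E
  rw [Matrix.zero_mulVec, Matrix.zero_mulVec, dev_zero, sub_zero]

theorem fixes_pow {c : Cf n d → K} {A : Matrix (Fin n) (Fin n) K} (h : Fixes A c) (t : ℕ) : Fixes (A ^ t) c := by
  induction t with
  | zero => intro x; simp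
  | succ t ih =>
    intro x
    rw [pow_succ, ← Matrix.mulVec_mulVec, ih (A *ᵥ x), h x, Matrix.mulVec_mulVec]

end

/-- `CODIM` -/
theorem t_CODIM : S_BASE.{u} → S_COMB.{u} → S_INJ.{u} → S_ORD.{u} → S_CODIM.{u} := by
  rintro ⟨b1, b2, -, -, -, -, -, -, b9⟩ hcomb hinj hord K _ _ _ n d hn hd c hc A A' hAA' hfix hns W hW
  classical
  obtain ⟨M, hM, hAM⟩ := hord K n d hd c hc A A' hAA' hfix
  obtain ⟨P, P', lam, hPP', hP'P, hAP⟩ := exists_diag K n A M hM hAM
  have hA'A : A' * A = 1 := mul_eq_one_comm.1 hAA'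
  have hA'M : A' ^ M = 1 := by
    have h1 : A' ^ M * A ^ M = 1 := by
      rw [← Commute.mul_pow (show Commute A' A by rw [Commute, SemiconjBy, hAA', hA'A]), hA'A, one_pow]
    rwa [hAM, mul_one] at h1
  have hpow : ∀ t, A ^ t * A' ^ t = 1 ∧ A' ^ t * A ^ t = 1 := fun t => by
    have hcom : Commute A A' := by rw [Commute, SemiconjBy, hAA', hA'A]
    constructor
    · rw [← hcom.mul_pow, hAA', one_pow]
    · rw [← hcom.symm.mul_pow, hA'A, one_pow]
  have hP'A : P' * A = Matrix.diagonal lam * P' := by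
    calc P' * A = P' * A * (P * P') := by rw [hPP', mul_one]
      _ = P' * (A * P) * P' := by simp only [mul_assoc]
      _ = P' * (P * Matrix.diagonal lam) * P' := by rw [hAP]
      _ = (P' * P) * Matrix.diagonal lam * P' := by simp only [mul_assoc]
      _ = Matrix.diagonal lam * P' := by rw [hP'P, one_mul]
  have hlam : ∀ i, lam i ≠ 0 := by
    intro i h0
    have h1 : Matrix.diagonal lam * (P' * A' * P) = 1 := by
      calc Matrix.diagonal lam * (P' * A' * P) = (Matrix.diagonal lam * P') * A' * P := by simp only [mul_assoc]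
        _ = P' * (A * A') * P := by rw [← hP'A]; simp only [mul_assoc]
        _ = 1 := by rw [hAA', mul_one, hP'P]
    have h2 := congrFun (congrFun h1 i) i
    rw [Matrix.diagonal_mul, h0, zero_mul, Matrix.one_apply_eq] at h2
    exact zero_ne_one h2
  have hne : ¬ ∀ i j, lam i = lam j := by
    intro h
    apply hns
    refine ⟨lam ⟨0, by omega⟩, ?_⟩
    have h1 : Matrix.diagonal lam = lam ⟨0, by omega⟩ • (1 : Matrix (Fin n) (Fin n) K) := by
      rw [Matrix.smul_one_eq_diagonal]
      congr 1
      funext i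
      exact h i _
    calc A = A * (P * P') := by rw [hPP', mul_one]
      _ = (A * P) * P' := by rw [mul_assoc]
      _ = _ := by rw [hAP, h1, Matrix.mul_smul, mul_one, Matrix.smul_mul, hPP']
  -- conjugation by `A ^ t`
  have hE : ∀ (t : ℕ) (B : Matrix (Fin n) (Fin n) K) (x : Fin n → K),
      E c (A' ^ t * B * A ^ t) x = A' ^ t *ᵥ E c B (A ^ t *ᵥ x) := by
    intro t B x
    obtain ⟨g1, g2⟩ := hpow t
    have hf := fixes_pow hfix t
    have hconj : conj (A ^ t) (A' ^ t) c = c := by
      refine b2 K n d _ _ fun y => ?_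
      rw [b1, hf y, Matrix.mulVec_mulVec, g2, Matrix.one_mulVec]
    have hdev : ∀ y, dev c x y = A' ^ t *ᵥ dev c (A ^ t *ᵥ x) (A ^ t *ᵥ y) := by
      intro y
      conv_lhs => rw [← hconj]
      rw [b9]
    unfold E
    rw [hdev, Matrix.mulVec_mulVec, show A ^ t * (A' ^ t * B * A ^ t) = B * A ^ t by
      rw [← mul_assoc, ← mul_assoc, g1, one_mul], Matrix.mulVec_sub, hf x, Matrix.mulVec_mulVec, Matrix.mulVec_mulVec,
      Matrix.mulVec_mulVec, mul_assoc]
  -- telescoping
  have htel : ∀ (v : Cf n d → K) (B : Matrix (Fin n) (Fin n) K),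
      (∀ x : Fin n → K, ev v (A *ᵥ x) - A *ᵥ ev v x = A *ᵥ E c B x) →
      ∀ (t : ℕ) (x : Fin n → K), A' ^ t *ᵥ ev v (A ^ t *ᵥ x) - ev v x =
        E c (∑ s ∈ Finset.range t, A' ^ s * B * A ^ s) x := by
    intro v B hvB t x
    induction t with
    | zero => simp [E_zero]
    | succ t ih =>
      rw [Finset.sum_range_succ, E_add, ← ih, hE]
      have h1 := hvB (A ^ t *ᵥ x)
      have h2 : ev v (A ^ (t + 1) *ᵥ x) = A *ᵥ ev v (A ^ t *ᵥ x) + A *ᵥ E c B (A ^ t *ᵥ x) := by
        rw [← h1, Matrix.mulVec_mulVec, ← pow_succ']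
        abel
      rw [h2, ← Matrix.mulVec_add, Matrix.mulVec_mulVec, pow_succ, mul_assoc, hA'A, mul_one, Matrix.mulVec_add]
      abel
  have hzero : ∀ (v : Cf n d → K) (B : Matrix (Fin n) (Fin n) K),
      (∀ x : Fin n → K, ev v (A *ᵥ x) - A *ᵥ ev v x = A *ᵥ E c B x) →
      ∑ s ∈ Finset.range M, A' ^ s * B * A ^ s = 0 := by
    intro v B hvB
    refine hinj K n d hd c hc _ fun x => ?_
    have h1 := htel v B hvB M x
    rw [hA'M, hAM, Matrix.one_mulVec, Matrix.one_mulVec, sub_self] at h1
    unfold E at h1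
    exact sub_eq_zero.1 h1.symm
  have hAs : ∀ s, A ^ s * P = P * Matrix.diagonal (fun i => lam i ^ s) := by
    intro s
    induction s with
    | zero => simp
    | succ s ih =>
      rw [pow_succ', mul_assoc, ih, ← mul_assoc, hAP, mul_assoc, Matrix.diagonal_mul_diagonal]
      congr 2
      funext i
      rw [pow_succ']
  have hA's : ∀ s, P' * A' ^ s = Matrix.diagonal (fun i => (lam i)⁻¹ ^ s) * P' := by
    have h0 : P' * A' = Matrix.diagonal (fun i => (lam i)⁻¹) * P' := by
      have h1 : Matrix.diagonal (fun i => (lam i)⁻¹) * Matrix.diagonal lam = 1 := by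
        rw [Matrix.diagonal_mul_diagonal, ← Matrix.diagonal_one]
        congr 1
        funext i
        exact inv_mul_cancel₀ (hlam i)
      calc P' * A' = (Matrix.diagonal (fun i => (lam i)⁻¹) * Matrix.diagonal lam) * P' * A' := by rw [h1, one_mul]
        _ = Matrix.diagonal (fun i => (lam i)⁻¹) * (Matrix.diagonal lam * P') * A' := by simp only [mul_assoc]
        _ = Matrix.diagonal (fun i => (lam i)⁻¹) * P' * (A * A') := by rw [← hP'A]; simp only [mul_assoc]
        _ = _ := by rw [hAA', mul_one]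
    intro s
    induction s with
    | zero => simp
    | succ s ih =>
      rw [pow_succ, ← mul_assoc, ih, mul_assoc, h0, ← mul_assoc, Matrix.diagonal_mul_diagonal]
      congr 2
      funext i
      rw [pow_succ]
  have hB : ∀ (v : Cf n d → K) (B : Matrix (Fin n) (Fin n) K),
      (∀ x : Fin n → K, ev v (A *ᵥ x) - A *ᵥ ev v x = A *ᵥ E c B x) →
      ∀ i j, lam i = lam j → (P' * B * P) i j = 0 := by
    intro v B hvB i j hij
    have h1 : ∀ s, P' * (A' ^ s * B * A ^ s) * P = Matrix.diagonal (fun i => (lam i)⁻¹ ^ s) * (P' * B * P) *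
        Matrix.diagonal (fun i => lam i ^ s) := by
      intro s
      calc P' * (A' ^ s * B * A ^ s) * P = (P' * A' ^ s) * B * (A ^ s * P) := by simp only [mul_assoc]
        _ = _ := by rw [hAs, hA's]; simp only [mul_assoc]
    have h2 : ∀ s, (P' * (A' ^ s * B * A ^ s) * P) i j = (P' * B * P) i j := by
      intro s
      rw [h1, Matrix.mul_diagonal, Matrix.diagonal_mul, hij]
      have h3 : (lam j)⁻¹ ^ s * lam j ^ s = 1 := by
        rw [← mul_pow, inv_mul_cancel₀ (hlam j), one_pow]
      calc (lam j)⁻¹ ^ s * (P' * B * P) i j * lam j ^ s = ((lam j)⁻¹ ^ s * lam j ^ s) * (P' * B * P) i j := by ring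
        _ = _ := by rw [h3, one_mul]
    have h4 := congrArg (fun N : Matrix (Fin n) (Fin n) K => (P' * N * P) i j) (hzero v B hvB)
    simp only [Matrix.mul_sum, Matrix.sum_mul, Matrix.sum_apply, h2, Finset.sum_const, Finset.card_range,
      mul_zero, zero_mul, Matrix.zero_apply, nsmul_eq_mul] at h4
    rcases mul_eq_zero.1 h4 with h5 | h5
    · exact absurd h5 (by exact_mod_cast hM.ne')
    · exact h5
  -- the coefficients of the commuting tuples
  have hV : ∀ v : Cf n d → K, (∀ x : Fin n → K, ev v (A *ᵥ x) = A *ᵥ ev v x) →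
      ∀ a : Cf n d, mon a.2 lam ≠ lam a.1 → conj P P' v a = 0 := by
    intro v hv a ha
    have h1 : (fun a : Cf n d => conj P P' v a * mon a.2 lam) = fun a => lam a.1 * conj P P' v a := by
      refine b2 K n d _ _ fun x => ?_
      have h2 : ev (fun a : Cf n d => conj P P' v a * mon a.2 lam) x =
          ev (conj P P' v) (Matrix.diagonal lam *ᵥ x) := by
        funext i
        have h3 : Matrix.diagonal lam *ᵥ x = fun l => lam l * x l := by
          funext l
          rw [Matrix.mulVec_diagonal]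
        rw [h3]
        unfold ev
        exact Finset.sum_congr rfl fun m _ => by rw [mon_mul]; ring
      have h4 : ev (fun a : Cf n d => lam a.1 * conj P P' v a) x =
          Matrix.diagonal lam *ᵥ ev (conj P P' v) x := by
        funext i
        rw [Matrix.mulVec_diagonal]
        unfold ev
        rw [Finset.mul_sum]
        exact Finset.sum_congr rfl fun m _ => by ring
      rw [h2, h4, b1, b1, Matrix.mulVec_mulVec, ← hAP, ← Matrix.mulVec_mulVec, hv, Matrix.mulVec_mulVec,
        Matrix.mulVec_mulVec, hP'A]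
    have h5 : conj P P' v a * mon a.2 lam = lam a.1 * conj P P' v a := congrFun h1 a
    have h6 : conj P P' v a * (mon a.2 lam - lam a.1) = 0 := by rw [mul_sub, h5]; ring
    rcases mul_eq_zero.1 h6 with h7 | h7
    · exact h7
    · exact absurd (sub_eq_zero.1 h7) ha
  -- the conjugation as a linear map
  let Cj : (Cf n d → K) →ₗ[K] (Cf n d → K) :=
    { toFun := conj P P'
      map_add' := fun v w => b2 K n d _ _ fun x => by
        rw [b1, ev_add, ev_add, b1, b1, Matrix.mulVec_add]
      map_smul' := fun r v => b2 K n d _ _ fun x => by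
        rw [RingHom.id_apply, b1, ev_smul, ev_smul, b1, Matrix.mulVec_smul] }
  have hCj : ∀ v, Cj v = 0 → v = 0 := by
    intro v hv
    refine b2 K n d _ _ fun x => ?_
    have h1 : ev (conj P P' v) (P' *ᵥ x) = 0 := by
      have h2 : conj P P' v = 0 := hv
      rw [h2, ev_zero]
    rw [b1, Matrix.mulVec_mulVec, hPP', Matrix.one_mulVec] at h1
    have h3 := congrArg (fun y => P *ᵥ y) h1
    simp only [Matrix.mulVec_mulVec, hPP', Matrix.one_mulVec, Matrix.mulVec_zero] at h3
    rw [h3, ev_zero]
  -- the pairs `(v, B)`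
  let Z : Submodule K ((Cf n d → K) × Matrix (Fin n) (Fin n) K) :=
    { carrier := {z | z.1 ∈ W ∧ ∀ x : Fin n → K, ev z.1 (A *ᵥ x) - A *ᵥ ev z.1 x = A *ᵥ E c z.2 x}
      add_mem' := by
        rintro z z' ⟨h1, h2⟩ ⟨h3, h4⟩
        refine ⟨W.add_mem h1 h3, fun x => ?_⟩
        rw [Prod.fst_add, Prod.snd_add, ev_add, ev_add, E_add, Matrix.mulVec_add, Matrix.mulVec_add, ← h2, ← h4]
        abel
      zero_mem' := ⟨W.zero_mem, fun x => by
        rw [Prod.fst_zero, Prod.snd_zero, ev_zero, ev_zero, E_zero, Matrix.mulVec_zero, sub_zero]⟩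
      smul_mem' := by
        rintro r z ⟨h1, h2⟩
        refine ⟨W.smul_mem r h1, fun x => ?_⟩
        rw [Prod.smul_fst, Prod.smul_snd, ev_smul, ev_smul, E_smul, Matrix.mulVec_smul, Matrix.mulVec_smul, ← h2,
          smul_sub] }
  have hWZ : W ≤ Z.map (LinearMap.fst K _ _) := by
    intro v hv
    obtain ⟨B, hB'⟩ := hW v hv
    exact ⟨(v, B), ⟨hv, hB'⟩, rfl⟩
  have hle1 : Module.finrank K W ≤ Module.finrank K Z :=
    (Submodule.finrank_mono hWZ).trans (Submodule.finrank_map_le _ _)
  let V1 : Type := {a : Cf n d // mon a.2 lam = lam a.1}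
  let Q : Type := {p : Fin n × Fin n // lam p.1 ≠ lam p.2}
  let Ψ : Z →ₗ[K] (V1 → K) × (Q → K) :=
    { toFun := fun z => (fun a => Cj z.1.1 a.1, fun p => (P' * z.1.2 * P) p.1.1 p.1.2)
      map_add' := fun z z' => by
        ext a
        · show Cj (z.1.1 + z'.1.1) a.1 = Cj z.1.1 a.1 + Cj z'.1.1 a.1
          rw [map_add]
          rfl
        · show (P' * (z.1.2 + z'.1.2) * P) a.1.1 a.1.2 = (P' * z.1.2 * P) a.1.1 a.1.2 + (P' * z'.1.2 * P) a.1.1 a.1.2
          rw [mul_add, add_mul]
          rfl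
      map_smul' := fun r z => by
        ext a
        · show Cj (r • z.1.1) a.1 = r * Cj z.1.1 a.1
          rw [map_smul]
          rfl
        · show (P' * (r • z.1.2) * P) a.1.1 a.1.2 = r * (P' * z.1.2 * P) a.1.1 a.1.2
          rw [Matrix.mul_smul, Matrix.smul_mul]
          rfl }
  have hinjΨ : Function.Injective Ψ := by
    rw [← LinearMap.ker_eq_bot, LinearMap.ker_eq_bot']
    rintro ⟨⟨v, B⟩, hv, hvB⟩ h0
    have h1 : (fun a : V1 => Cj v a.1) = 0 := congrArg Prod.fst h0
    have h2 : (fun p : Q => (P' * B * P) p.1.1 p.1.2) = 0 := congrArg Prod.snd h0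
    have h3 : P' * B * P = 0 := by
      ext i j
      by_cases hij : lam i = lam j
      · exact hB v B hvB i j hij
      · exact congrFun h2 ⟨(i, j), hij⟩
    have h4 : B = 0 := by
      calc B = (P * P') * B * (P * P') := by rw [hPP', one_mul, mul_one]
        _ = P * (P' * B * P) * P' := by simp only [mul_assoc]
        _ = 0 := by rw [h3, mul_zero, zero_mul]
    subst h4
    have h5 : ∀ x : Fin n → K, ev v (A *ᵥ x) = A *ᵥ ev v x := by
      intro x
      have h6 := hvB x
      simp only at h6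
      rw [E_zero, Matrix.mulVec_zero] at h6
      exact sub_eq_zero.1 h6
    have h7 : Cj v = 0 := by
      funext a
      by_cases ha : mon a.2 lam = lam a.1
      · exact congrFun h1 ⟨a, ha⟩
      · exact hV v h5 a ha
    have h8 := hCj v h7
    subst h8
    rfl
  have hle2 : Module.finrank K Z ≤ Fintype.card V1 + Fintype.card Q := by
    have h1 := LinearMap.finrank_le_finrank_of_injective hinjΨ
    rwa [Module.finrank_prod, Module.finrank_fintype_fun_eq_card, Module.finrank_fintype_fun_eq_card] at h1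
  have hcard : Fintype.card V1 + Fintype.card {a : Cf n d // ¬ mon a.2 lam = lam a.1} = Fintype.card (Cf n d) := by
    rw [← Fintype.card_sum]
    exact Fintype.card_congr (Equiv.sumCompl fun a : Cf n d => mon a.2 lam = lam a.1)
  have hcb := hcomb K n d hn hd lam hlam hne
  have e1 : Fintype.card {p : Fin n × Fin n // lam p.1 ≠ lam p.2} = Fintype.card Q := Fintype.card_congr (Equiv.refl _)
  have e2 : Fintype.card {a : Cf n d // mon a.2 lam ≠ lam a.1} =
      Fintype.card {a : Cf n d // ¬ mon a.2 lam = lam a.1} := Fintype.card_congr (Equiv.refl _)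
  have hcb' : Fintype.card Q + 2 ≤ Fintype.card {a : Cf n d // ¬ mon a.2 lam = lam a.1} := by
    convert hcb using 2
  omega

end Pool.Agent.D0H98.SM
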