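import Pool.Agent.D0H90.SM.Stm3

/-! `UNIQ` of `Pool.Agent.D0H90.SM.Stm3`. -/

set_option autoImplicit false

namespace Pool.Agent.D0H98.SM.Uniq

open MvPolynomial Matrix Pool.Agent.D0H90.SM

universe u

theorem bas_same {R : Type*} [CommRing R] {n : ℕ} (i : Fin n) : (bas i : Fin n → R) i = 1 :=
  Pi.single_eq_same i 1

theorem bas_ne {R : Type*} [CommRing R] {n : ℕ} {i l : Fin n} (h : l ≠ i) : (bas i : Fin n → R) l = 0 :=
  Pi.single_eq_of_ne h 1

theorem dmon_bas {R : Type*} [CommRing R] {n d : ℕ} (m : Ex n d) (x y : Fin n → R) :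
    dmon m x y = ∑ t, y t * dmon m x (bas t) := by
  have h : ∀ t, dmon m x (bas t) = ((m.1 t : ℕ) : R) * ∏ s, x s ^ (if s = t then (m.1 s : ℕ) - 1 else (m.1 s : ℕ)) := by
    intro t
    unfold dmon
    rw [Finset.sum_eq_single t]
    · rw [bas_same, mul_one]
    · intro l _ hl
      rw [bas_ne hl, mul_zero, zero_mul]
    · simp
  simp only [h]
  unfold dmon
  exact Finset.sum_congr rfl fun l _ => by ring

theorem dev_bas {R : Type*} [CommRing R] {n d : ℕ} (c : Cf n d → R) (x y : Fin n → R) (j : Fin n) :
    dev c x y j = ∑ t, y t * dev c x (bas t) j := by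
  unfold dev
  simp only [Finset.mul_sum]
  rw [Finset.sum_comm]
  refine Finset.sum_congr rfl fun m _ => ?_
  rw [dmon_bas, Finset.mul_sum]
  exact Finset.sum_congr rfl fun t _ => by ring

theorem mon_bas {n d : ℕ} {k : Type*} [Field k] (m : Ex n d) (i : Fin n) (h : mon m (bas i : Fin n → k) ≠ 0) :
    (m.1 i : ℕ) = d := by
  have h1 : ∀ l, l ≠ i → (m.1 l : ℕ) = 0 := by
    intro l hl
    by_contra h2
    apply h
    unfold mon
    refine Finset.prod_eq_zero (Finset.mem_univ l) ?_
    rw [bas_ne hl, zero_pow h2]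
  have h3 := m.2
  rw [Finset.sum_eq_single i (fun l _ hl => h1 l hl) (by simp)] at h3
  exact h3

theorem ev_glue {n d : ℕ} {k : Type*} [Field k] (c : Cf n d → k) (w : Rest n d → k) (i : Fin n) :
    ev (glue c w) (bas i) = ev c (bas i) := by
  funext j
  unfold ev
  refine Finset.sum_congr rfl fun m _ => ?_
  by_cases h : mon m (bas i : Fin n → k) = 0
  · rw [h, mul_zero, mul_zero]
  · have h1 : ∃ i, ((j, m) : Cf n d).2.1 i = (d : ℕ) := ⟨i, mon_bas m i h⟩
    unfold glue
    rw [dif_pos h1]

theorem lin {R k ι : Type*} [CommRing R] [IsDomain R] [Field k] [Fintype ι] [DecidableEq ι] (φ : R →+* k)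
    (M : Matrix ι ι R) (hM : ∀ z : ι → k, (M.map φ) *ᵥ z = 0 → z = 0) (z : ι → R) (hz : M *ᵥ z = 0) : z = 0 := by
  refine Matrix.eq_zero_of_mulVec_eq_zero ?_ hz
  intro h
  have h1 : (M.map φ).det = 0 := by
    have h2 := (RingHom.map_det φ M).symm
    rw [h, map_zero] at h2
    exact h2
  obtain ⟨v, hv, hv0⟩ := Matrix.exists_mulVec_eq_zero_iff.2 h1
  exact hv (hM v hv0)

/-- `UNIQ` -/
theorem t_UNIQ : S_BASE.{u} → S_OVP.{u} → S_UNIQ.{u} := by
  rintro ⟨-, -, b3, b4, -, -, b7, -, -⟩ hov k _ _ n d hd c w hT pl E E' hS hS' hE hE' hE1 hE1'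
  classical
  have hF : ∀ a, genf c a ∈ pl.ring := fun a => by
    obtain ⟨h, -, -⟩ := hov k n d c w pl (X a)
    have h1 : thetaO c (X a) = genf c a := by
      unfold thetaO theta genf
      rw [MvPolynomial.aeval_X]
    rwa [h1] at h
  have hFv : ∀ a, pl.hom ⟨_, hF a⟩ = glue c w a := fun a => by
    obtain ⟨h, h2, -⟩ := hov k n d c w pl (X a)
    have h1 : thetaO c (X a) = genf c a := by
      unfold thetaO theta genf
      rw [MvPolynomial.aeval_X]
    rw [MvPolynomial.eval_X] at h2
    rw [← h2]
    congr 1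
    exact Subtype.ext h1.symm
  have hK : ∀ t : k, algebraMap k (OM n d k) t ∈ pl.ring := fun t => by
    have h := pl.mem (C t)
    rwa [← MvPolynomial.algebraMap_eq, ← IsScalarTower.algebraMap_apply, ← IsScalarTower.algebraMap_apply] at h
  have hKv : ∀ t : k, pl.hom ⟨_, hK t⟩ = t := fun t => by
    have h := pl.eq (C t)
    have h1 : evalOne w (C t) = t := by
      unfold evalOne
      rw [MvPolynomial.eval_C]
    rw [h1] at h
    refine Eq.trans (congrArg pl.hom (Subtype.ext ?_)) h
    show algebraMap k (OM n d k) t = algebraMap (LL n d k) (OM n d k) (algebraMap (PP n d k) (LL n d k) (C t))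
    rw [← MvPolynomial.algebraMap_eq, ← IsScalarTower.algebraMap_apply, ← IsScalarTower.algebraMap_apply]
  let F : Cf n d → pl.ring := fun a => ⟨genf c a, hF a⟩
  let x : Fin n → Fin n → pl.ring := fun i l => ⟨E l i, hE l i⟩
  let x' : Fin n → Fin n → pl.ring := fun i l => ⟨E' l i, hE' l i⟩
  let κ : Fin n → Fin n → pl.ring := fun i j => ⟨_, hK (ev c (bas i) j)⟩
  have hs : ∀ i, ev F (x i) = fun j => ∑ l, x l j * κ i l := by
    intro i
    funext j
    refine Subtype.ext ?_
    have h1 := congrFun (b3 pl.ring (OM n d k) pl.ring.subtype n d F (x i)) j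
    have h2 := congrFun (hS i) j
    have h3 : pl.ring.subtype (ev F (x i) j) = ev (genf c) (fun l => E l i) j := h1.symm
    show pl.ring.subtype (ev F (x i) j) = pl.ring.subtype (∑ l, x l j * κ i l)
    rw [h3, h2, map_sum]
    rfl
  have hs' : ∀ i, ev F (x' i) = fun j => ∑ l, x' l j * κ i l := by
    intro i
    funext j
    refine Subtype.ext ?_
    have h1 := congrFun (b3 pl.ring (OM n d k) pl.ring.subtype n d F (x' i)) j
    have h2 := congrFun (hS' i) j
    have h3 : pl.ring.subtype (ev F (x' i) j) = ev (genf c) (fun l => E' l i) j := h1.symm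
    show pl.ring.subtype (ev F (x' i) j) = pl.ring.subtype (∑ l, x' l j * κ i l)
    rw [h3, h2, map_sum]
    rfl
  let h : Fin n → Fin n → pl.ring := fun i => x' i - x i
  have hq : ∀ i, ∃ q : Fin n → Fin n → Fin n → pl.ring, ∀ j,
      ev F (x i + h i) j = ev F (x i) j + dev F (x i) (h i) j + ∑ s, ∑ t, h i s * h i t * q j s t := by
    intro i
    obtain ⟨q, -, hq⟩ := b7 pl.ring n d F (x i) (h i) ⊤ (fun _ => trivial) (fun _ => trivial) (fun _ => trivial)
    exact ⟨q, hq⟩
  choose q hq using hq
  let M : Matrix (Fin n × Fin n) (Fin n × Fin n) pl.ring := fun p r =>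
    (if r.2 = p.2 then dev F (x p.2) (bas r.1) p.1 + ∑ s, h p.2 s * q p.2 p.1 s r.1 else 0) -
      (if r.1 = p.1 then κ p.2 r.2 else 0)
  have hφx : ∀ i l, pl.hom (x i l) = (bas i : Fin n → k) l := by
    intro i l
    show pl.hom ⟨_, hE l i⟩ = _
    rw [hE1]
    by_cases hli : l = i
    · subst hli
      rw [if_pos rfl, bas_same]
    · rw [if_neg hli, bas_ne hli]
  have hφx' : ∀ i l, pl.hom (x' i l) = (bas i : Fin n → k) l := by
    intro i l
    show pl.hom ⟨_, hE' l i⟩ = _
    rw [hE1']
    by_cases hli : l = i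
    · subst hli
      rw [if_pos rfl, bas_same]
    · rw [if_neg hli, bas_ne hli]
  have hφh : ∀ i l, pl.hom (h i l) = 0 := by
    intro i l
    show pl.hom (x' i l - x i l) = 0
    rw [map_sub, hφx, hφx', sub_self]
  have hM : ∀ z : Fin n × Fin n → k, (M.map pl.hom) *ᵥ z = 0 → z = 0 := by
    intro z hz
    let B : Matrix (Fin n) (Fin n) k := fun t i => z (t, i)
    have hB : B = 0 := by
      refine hT B fun i => ?_
      rw [ev_glue]
      funext j
      have h1 := congrFun hz (j, i)
      rw [Matrix.mulVec, dotProduct, Fintype.sum_prod_type] at h1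
      have h2 : ∀ t i', (M.map pl.hom) (j, i) (t, i') =
          (if i' = i then dev (glue c w) (bas i) (bas t) j else 0) - (if t = j then ev c (bas i) i' else 0) := by
        intro t i'
        show pl.hom ((if i' = i then dev F (x i) (bas t) j + ∑ s, h i s * q i j s t else 0) -
          (if t = j then κ i i' else 0)) = _
        have h3 : pl.hom (dev F (x i) (bas t) j) = dev (glue c w) (bas i) (bas t) j := by
          have h4 := congrFun (b4 pl.ring k pl.hom n d F (x i) (bas t)) j
          rw [← h4]
          have e1 : (fun a => pl.hom (F a)) = glue c w := funext fun a => hFv a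
          have e2 : (fun l => pl.hom (x i l)) = bas i := funext fun l => hφx i l
          have e3 : (fun l => pl.hom ((bas t : Fin n → pl.ring) l)) = bas t := by
            funext l
            by_cases hl : l = t
            · subst hl
              rw [bas_same, bas_same, map_one]
            · rw [bas_ne hl, bas_ne hl, map_zero]
          rw [e1, e2, e3]
        have h5 : pl.hom (κ i i') = ev c (bas i) i' := hKv _
        rw [map_sub]
        congr 1
        · split_ifs
          · rw [map_add, h3, map_sum]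
            simp only [map_mul, hφh, zero_mul, Finset.sum_const_zero, add_zero]
          · exact map_zero _
        · split_ifs
          · exact h5
          · exact map_zero _
      simp only [h2, sub_mul, ite_mul, zero_mul, Finset.sum_sub_distrib] at h1
      have h6 : ∑ t, ∑ i', (if i' = i then dev (glue c w) (bas i) (bas t) j * z (t, i') else 0) =
          dev (glue c w) (bas i) (B *ᵥ bas i) j := by
        rw [dev_bas]
        refine Finset.sum_congr rfl fun t _ => ?_
        rw [Finset.sum_ite_eq' Finset.univ i, if_pos (Finset.mem_univ _), mul_comm]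
        congr 1
        rw [Matrix.mulVec_single_one]
        rfl
      have h7 : ∑ t, ∑ i', (if t = j then ev c (bas i) i' * z (t, i') else 0) = (B *ᵥ ev c (bas i)) j := by
        rw [Finset.sum_comm]
        rw [Matrix.mulVec, dotProduct]
        refine Finset.sum_congr rfl fun i' _ => ?_
        rw [Finset.sum_ite_eq' Finset.univ j, if_pos (Finset.mem_univ _), mul_comm]
      rw [h6, h7] at h1
      exact sub_eq_zero.1 h1
    funext p
    exact congrFun (congrFun hB p.1) p.2
  have hz : M *ᵥ (fun p : Fin n × Fin n => h p.2 p.1) = 0 := by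
    funext p
    obtain ⟨j, i⟩ := p
    rw [Matrix.mulVec, dotProduct, Fintype.sum_prod_type]
    show ∑ t, ∑ i', ((if i' = i then dev F (x i) (bas t) j + ∑ s, h i s * q i j s t else 0) -
          (if t = j then κ i i' else 0)) * h i' t = 0
    simp only [sub_mul, ite_mul, zero_mul, Finset.sum_sub_distrib]
    have h6 : ∑ t, ∑ i', (if i' = i then (dev F (x i) (bas t) j + ∑ s, h i s * q i j s t) * h i' t else 0) =
        dev F (x i) (h i) j + ∑ s, ∑ t, h i s * h i t * q i j s t := by
      rw [dev_bas F (x i) (h i), Finset.sum_comm (s := Finset.univ) (t := Finset.univ)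
        (f := fun s t => h i s * h i t * q i j s t), ← Finset.sum_add_distrib]
      refine Finset.sum_congr rfl fun t _ => ?_
      rw [Finset.sum_ite_eq' Finset.univ i, if_pos (Finset.mem_univ _), add_mul, Finset.sum_mul]
      congr 1
      · ring
      · exact Finset.sum_congr rfl fun s _ => by ring
    have h7 : ∑ t, ∑ i', (if t = j then κ i i' * h i' t else 0) = ∑ i', κ i i' * h i' j := by
      rw [Finset.sum_comm]
      refine Finset.sum_congr rfl fun i' _ => ?_
      rw [Finset.sum_ite_eq' Finset.univ j, if_pos (Finset.mem_univ _)]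
    rw [h6, h7]
    have h8 := hq i j
    have h9 : x i + h i = x' i := by
      show x i + (x' i - x i) = x' i
      abel
    rw [h9, hs, hs'] at h8
    simp only at h8
    have h10 : ∑ i', κ i i' * h i' j = ∑ l, x' l j * κ i l - ∑ l, x l j * κ i l := by
      rw [← Finset.sum_sub_distrib]
      refine Finset.sum_congr rfl fun l _ => ?_
      show κ i l * (x' l j - x l j) = _
      ring
    rw [h10]
    show _ = (0 : pl.ring)
    linear_combination (-1 : pl.ring) * h8
  have h0 := lin pl.hom M hM _ hz
  ext l i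
  have h1 := congrFun h0 (l, i)
  have h2 : x' i l = x i l := sub_eq_zero.1 h1
  exact (congrArg Subtype.val h2).symm

end Pool.Agent.D0H98.SM.Uniq
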