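import Mathlib

set_option autoImplicit false

namespace Pool.Agent.D0H98.SM

open MvPolynomial

universe u

/-- Elements fixed by all automorphisms which fix a finite transcendence basis `g` are quotients of coprime
polynomials in `g`. -/
theorem desc_core {k : Type u} [Field k] {ι : Type} [Finite ι] {Ω : Type u} [Field Ω] [Algebra k Ω]
    [IsAlgClosed Ω] [CharZero Ω] (g : ι → Ω) (hg : AlgebraicIndependent k g)
    (htr : Cardinal.lift.{0} (Algebra.trdeg k Ω) ≤ Cardinal.lift.{u} (Cardinal.mk ι)) (a : Ω)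
    (hfix : ∀ σ : Ω ≃ₐ[k] Ω, (∀ i, σ (g i) = g i) → σ a = a) :
    ∃ P Q : MvPolynomial ι k, Q ≠ 0 ∧ IsRelPrime Q P ∧ a * aeval g Q = aeval g P := by
  have hb : IsTranscendenceBasis k g := hg.isTranscendenceBasis_of_lift_trdeg_le_of_finite htr
  set F := IntermediateField.adjoin k (Set.range g) with hF
  have halg : Algebra.IsAlgebraic F Ω := hb.isAlgebraic_field
  have hcl : IsAlgClosure F Ω := ⟨inferInstance, halg⟩
  have hnorm : Normal F Ω := IsAlgClosure.normal F Ω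
  have hF0 : CharZero F := ⟨fun m n h => by
    have h1 := congrArg (algebraMap F Ω) h
    rw [map_natCast, map_natCast] at h1
    exact_mod_cast h1⟩
  have hgal : IsGalois F Ω := ⟨⟩
  have hmem : a ∈ (⊥ : IntermediateField F Ω) := by
    rw [InfiniteGalois.mem_bot_iff_fixed]
    intro f
    have h1 := hfix (f.restrictScalars k) (fun i => by
      have h2 : g i ∈ F := IntermediateField.subset_adjoin k _ ⟨i, rfl⟩
      have h3 := f.commutes ⟨g i, h2⟩
      exact h3)
    exact h1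
  rw [IntermediateField.mem_bot] at hmem
  obtain ⟨⟨a', ha'⟩, rfl⟩ := hmem
  change ∃ P Q : MvPolynomial ι k, Q ≠ 0 ∧ IsRelPrime Q P ∧ a' * aeval g Q = aeval g P
  rw [hF, IntermediateField.mem_adjoin_range_iff] at ha'
  obtain ⟨r, s, hrs⟩ := ha'
  by_cases hs : s = 0
  · refine ⟨0, 1, one_ne_zero, isRelPrime_one_left, ?_⟩
    rw [hrs, hs, map_zero, div_zero, zero_mul]
  · obtain ⟨Q, P, c, h1, h2, h3⟩ := UniqueFactorizationMonoid.exists_reduced_factors s hs r
    have hinj : Function.Injective (aeval g : MvPolynomial ι k → Ω) := hg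
    have hQ : Q ≠ 0 := by
      rintro rfl
      exact hs (by rw [← h2, mul_zero])
    have hc : c ≠ 0 := by
      rintro rfl
      exact hs (by rw [← h2, zero_mul])
    have hQ' : aeval g Q ≠ 0 := fun h => hQ (hinj (by rw [h, map_zero]))
    have hc' : aeval g c ≠ 0 := fun h => hc (hinj (by rw [h, map_zero]))
    refine ⟨P, Q, hQ, h1, ?_⟩
    rw [hrs, ← h2, ← h3, map_mul, map_mul]
    field_simp

section
variable {k : Type u} [Field k] {ι : Type} {Ω : Type u} [Field Ω]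
  (θ : MvPolynomial ι k →+* Ω) (v : ι → k)

theorem mem_Ov (x : Ω) (hθ : Function.Injective θ)
    (hx : x ∈ Subring.closure ({x | ∃ P, x = θ P} ∪ {x | ∃ Q, eval v Q ≠ 0 ∧ x = (θ Q)⁻¹})) :
    ∃ p s, eval v s ≠ 0 ∧ x * θ s = θ p := by
  have hne : ∀ s, eval v s ≠ 0 → θ s ≠ 0 := by
    intro s hs h
    have : s = 0 := hθ (by rw [h, map_zero])
    rw [this, map_zero] at hs
    exact hs rfl
  induction hx using Subring.closure_induction with
  | mem x hx =>
    rcases hx with ⟨P, rfl⟩ | ⟨Q, hQ, rfl⟩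
    · exact ⟨P, 1, by simp, by simp⟩
    · exact ⟨1, Q, hQ, by rw [inv_mul_cancel₀ (hne Q hQ), map_one]⟩
  | zero => exact ⟨0, 1, by simp, by simp⟩
  | one => exact ⟨1, 1, by simp, by simp⟩
  | add x y _ _ hx hy =>
    obtain ⟨p, s, hs, h1⟩ := hx
    obtain ⟨q, t, ht, h2⟩ := hy
    refine ⟨p * t + q * s, s * t, by rw [map_mul]; exact mul_ne_zero hs ht, ?_⟩
    rw [map_add, map_mul, map_mul, map_mul, ← h1, ← h2]
    ring
  | neg x _ hx =>
    obtain ⟨p, s, hs, h1⟩ := hx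
    exact ⟨-p, s, hs, by rw [map_neg, ← h1]; ring⟩
  | mul x y _ _ hx hy =>
    obtain ⟨p, s, hs, h1⟩ := hx
    obtain ⟨q, t, ht, h2⟩ := hy
    refine ⟨p * q, s * t, by rw [map_mul]; exact mul_ne_zero hs ht, ?_⟩
    rw [map_mul, map_mul, ← h1, ← h2]
    ring

theorem common (m : ℕ) (f : ℕ → Ω) (hf : ∀ i, ∃ p s, eval v s ≠ 0 ∧ f i * θ s = θ p) :
    ∃ S, eval v S ≠ 0 ∧ ∀ i < m, ∃ q, f i * θ S = θ q := by
  induction m with
  | zero => exact ⟨1, by simp, fun i hi => absurd hi (Nat.not_lt_zero i)⟩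
  | succ m ih =>
    obtain ⟨S, hS, h⟩ := ih
    obtain ⟨p, s, hs, h1⟩ := hf m
    refine ⟨S * s, by rw [map_mul]; exact mul_ne_zero hS hs, fun i hi => ?_⟩
    rcases Nat.lt_succ_iff_lt_or_eq.1 hi with h2 | rfl
    · obtain ⟨q, hq⟩ := h i h2
      exact ⟨q * s, by rw [map_mul, map_mul, ← hq]; ring⟩
    · exact ⟨p * S, by rw [map_mul, map_mul, ← h1]; ring⟩

theorem den_ne (hθ : Function.Injective θ) (a : Ω)
    (ha : IsIntegral (Subring.closure ({x | ∃ P, x = θ P} ∪ {x | ∃ Q, eval v Q ≠ 0 ∧ x = (θ Q)⁻¹})) a)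
    (P Q : MvPolynomial ι k) (hPQ : IsRelPrime Q P) (h : a * θ Q = θ P) : eval v Q ≠ 0 := by
  obtain ⟨f, hf1, hf2⟩ := ha
  set m := f.natDegree with hm
  rw [Polynomial.eval₂_eq_sum_range, ← hm, Finset.sum_range_succ] at hf2
  have hlead : f.coeff m = 1 := hf1
  rw [hlead, map_one, one_mul] at hf2
  obtain ⟨S, hS, hq⟩ := common θ v m (fun i => algebraMap _ Ω (f.coeff i))
    (fun i => mem_Ov θ v _ hθ (f.coeff i).2)
  have hex : ∀ i : Fin m, ∃ q, algebraMap _ Ω (f.coeff i) * θ S = θ q := fun i => hq i i.2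
  choose q hq using hex
  have h1 : θ (∑ i : Fin m, q i * P ^ (i : ℕ) * Q ^ (m - i) + S * P ^ m) = 0 := by
    have h2 : ∑ i ∈ Finset.range m, (algebraMap _ Ω (f.coeff i) * a ^ i) =
        ∑ i : Fin m, algebraMap _ Ω (f.coeff i) * a ^ (i : ℕ) := (Fin.sum_univ_eq_sum_range
          (fun i => algebraMap _ Ω (f.coeff i) * a ^ i) m).symm
    rw [h2] at hf2
    have h3 : (∑ i : Fin m, algebraMap _ Ω (f.coeff i) * a ^ (i : ℕ) + a ^ m) * (θ S * θ Q ^ m) = 0 := by
      rw [hf2, zero_mul]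
    rw [← h3, map_add, map_sum, add_mul, Finset.sum_mul]
    congr 1
    · refine Finset.sum_congr rfl fun i _ => ?_
      rw [map_mul, map_mul, map_pow, map_pow, ← hq, ← h]
      have h4 : θ Q ^ m = θ Q ^ (i : ℕ) * θ Q ^ (m - i) := by
        rw [← pow_add]
        congr 1
        have := i.2
        omega
      rw [h4, mul_pow]
      ring
    · rw [map_mul, map_pow, ← h, mul_pow]
      ring
  have h5 : ∑ i : Fin m, q i * P ^ (i : ℕ) * Q ^ (m - i) + S * P ^ m = 0 := hθ (by rw [h1, map_zero])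
  have h6 : Q ∣ S * P ^ m := by
    have h7 : S * P ^ m = -∑ i : Fin m, q i * P ^ (i : ℕ) * Q ^ (m - i) := by
      linear_combination h5
    rw [h7, dvd_neg]
    refine Finset.dvd_sum fun i _ => ?_
    refine Dvd.dvd.mul_left (dvd_pow_self Q ?_) _
    have := i.2
    omega
  have h8 : Q ∣ S := (hPQ.pow_right (n := m)).dvd_of_dvd_mul_right h6
  obtain ⟨t, rfl⟩ := h8
  rw [map_mul] at hS
  exact left_ne_zero_of_mul hS

end

end Pool.Agent.D0H98.SM
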