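import Pool.Agent.D0H90.SM.Stm3
import Pool.Agent.D0H98.SM.Desc0

/-! `DESC` of `Pool.Agent.D0H90.SM.Stm3`. -/

set_option autoImplicit false

namespace Pool.Agent.D0H98.SM

open MvPolynomial Matrix Pool.Agent.D0H90.SM

universe u

section
variable {n d : ℕ} {k : Type u} [Field k] (c : Cf n d → k)

theorem thetaO_eq (P : Pol n d k) : thetaO c P = aeval (genf c) P := by
  exact (MvPolynomial.aeval_algebraMap_apply (B := OM n d k) (genfL c) P).symm

/-- `thetaO` as a ring homomorphism -/
noncomputable def thO : Pol n d k →+* OM n d k := (aeval (genf c) : Pol n d k →ₐ[k] OM n d k).toRingHom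

theorem thO_apply (P : Pol n d k) : thO c P = thetaO c P := (thetaO_eq c P).symm

theorem thO_inj (hθ : Function.Injective (theta c)) : Function.Injective (thO c) := by
  intro P Q h
  rw [thO_apply, thO_apply] at h
  exact hθ ((algebraMap (LL n d k) (OM n d k)).injective h)

theorem Ov_eq (v : Cf n d → k) : Ov c v =
    Subring.closure ({x | ∃ P, x = thO c P} ∪ {x | ∃ Q, eval v Q ≠ 0 ∧ x = (thO c Q)⁻¹}) := by
  unfold Ov
  simp only [thO_apply]

end

/-- the index of the coefficient of `x_i ^ d` in the `j`-th form -/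
def top {n d : ℕ} (_hd : 2 ≤ d) (p : Fin n × Fin n) : Cf n d :=
  (p.1, ⟨fun l => if l = p.2 then ⟨d, Nat.lt_succ_self d⟩ else ⟨0, Nat.succ_pos d⟩, by
    rw [Finset.sum_eq_single p.2]
    · simp
    · intro l _ hl
      simp [hl]
    · simp⟩)

theorem top_inj {n d : ℕ} (hd : 2 ≤ d) : Function.Injective (top (n := n) hd) := by
  rintro ⟨i, j⟩ ⟨i', j'⟩ h
  have h1 : i = i' := congrArg Prod.fst h
  have h2 := congrArg (fun a : Cf n d => a.2.1 j) h
  simp only [top, if_true] at h2
  by_cases h3 : j = j'
  · rw [h1, h3]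
  · rw [if_neg h3] at h2
    have h4 := congrArg Fin.val h2
    simp only at h4
    omega

theorem top_mem {n d : ℕ} (hd : 2 ≤ d) (p : Fin n × Fin n) : ∃ i, ((top hd p).2.1 i : ℕ) = d :=
  ⟨p.2, by simp [top]⟩

theorem trdeg_le {n d : ℕ} (hd : 2 ≤ d) (k : Type u) [Field k] :
    Cardinal.lift.{0} (Algebra.trdeg k (OM n d k)) ≤ Cardinal.lift.{u} (Cardinal.mk (Cf n d)) := by
  classical
  have hX : IsTranscendenceBasis k (X : (Fin n × Fin n) ⊕ Rest n d → PP n d k) :=
    IsTranscendenceBasis.mvPolynomial _ _
  have halg : Algebra.IsAlgebraic (PP n d k) (LL n d k) :=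
    IsLocalization.isAlgebraic (LL n d k) (nonZeroDivisors (PP n d k))
  have h1 := hX.algebraMap_comp (A := LL n d k)
  have h2 := h1.algebraMap_comp (A := OM n d k)
  have h3 := h2.lift_cardinalMk_eq_trdeg
  have h4 : Cardinal.mk ((Fin n × Fin n) ⊕ Rest n d) ≤ Cardinal.mk (Cf n d) := by
    refine Cardinal.mk_le_of_injective (f := Sum.elim (top hd) Subtype.val) ?_
    intro a b hab
    rcases a with a | a <;> rcases b with b | b
    · exact congrArg Sum.inl (top_inj hd hab)
    · exact absurd (by rw [← show top hd a = b.1 from hab]; exact top_mem hd a) b.2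
    · exact absurd (by rw [← show top hd b = a.1 from hab.symm]; exact top_mem hd b) a.2
    · exact congrArg Sum.inr (Subtype.ext hab)
  have h5 : Algebra.trdeg k (OM n d k) = Cardinal.lift.{u} (Cardinal.mk ((Fin n × Fin n) ⊕ Rest n d)) := by
    rw [Cardinal.lift_id'] at h3
    exact h3.symm
  rw [h5, Cardinal.lift_lift]
  exact Cardinal.lift_le.2 h4

/-- `DESC` -/
theorem t_DESC : S_BASE.{u} → S_THETA.{u} → S_EXTB.{u} → S_DESC.{u} := by
  rintro ⟨b1, b2, -, -, b5, -, -, -, -⟩ hTH hEX k _ _ _ n d hd c hc v1 v2 b a hsym hi1 hi2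
  have hinj := thO_inj c (hTH k n d hd c hc)
  have hch : CharZero (OM n d k) := charZero_of_injective_algebraMap (algebraMap k (OM n d k)).injective
  have hg : AlgebraicIndependent k (genf c) := hinj
  obtain ⟨P, Q, hQ0, hPQ, hrel⟩ := desc_core (genf c) hg (trdeg_le hd k) a (fun σ hσ => by
    have h1 := hsym 1 1 σ.toRingEquiv (mul_one 1) ⟨fun t => σ.commutes t, fun a => by
      rw [Matrix.map_one _ (map_zero _) (map_one _)]
      have h2 : conj (1 : Matrix (Fin n) (Fin n) (OM n d k)) 1 (genf c) = genf c := by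
        refine b2 _ n d _ _ fun x => ?_
        rw [b1, Matrix.one_mulVec, Matrix.one_mulVec]
      rw [h2]
      exact hσ a⟩
    rw [Matrix.det_one, map_one, one_pow, one_mul] at h1
    exact h1)
  refine ⟨P, Q, ?_, den_ne (thO c) v1 hinj a (by rw [← Ov_eq]; exact hi1) P Q hPQ hrel,
    den_ne (thO c) v2 hinj a (by rw [← Ov_eq]; exact hi2) P Q hPQ hrel, ?_⟩
  · intro A A' hAA' c0
    obtain ⟨σ, hσ1, hσ2⟩ := hEX k n d c A A' hAA'
    have h1 := hsym A A' σ hAA' ⟨hσ1, hσ2⟩
    let g : Cf n d → Pol n d k := conj (A.map (C : k →+* Pol n d k)) (A'.map (C : k →+* Pol n d k)) X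
    let PA : Pol n d k →+* Pol n d k := (aeval g : Pol n d k →ₐ[k] Pol n d k).toRingHom
    have e1 : (σ : OM n d k →+* OM n d k).comp (thO c) = (thO c).comp PA := by
      refine MvPolynomial.ringHom_ext (fun t => ?_) (fun a => ?_)
      · show σ (aeval (genf c) (C t)) = aeval (genf c) (aeval g (C t : Pol n d k))
        rw [MvPolynomial.aeval_C, MvPolynomial.aeval_C, hσ1]
        exact (MvPolynomial.aeval_C _ _).symm
      · show σ (aeval (genf c) (X a)) = aeval (genf c) (aeval g (X a : Pol n d k))
        rw [MvPolynomial.aeval_X, MvPolynomial.aeval_X, hσ2]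
        have h2 := congrFun (b5 (Pol n d k) (OM n d k) (thO c) n d X
          (A.map (C : k →+* Pol n d k)) (A'.map (C : k →+* Pol n d k))) a
        have h3 : ∀ B : Matrix (Fin n) (Fin n) k, (B.map (C : k →+* Pol n d k)).map (thO c) =
            B.map (algebraMap k (OM n d k)) := by
          intro B
          ext i j
          exact MvPolynomial.aeval_C _ _
        rw [h3, h3] at h2
        have h4 : (fun a => thO c (X a)) = genf c := by
          funext a
          exact MvPolynomial.aeval_X _ _
        rw [h4] at h2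
        exact h2
    have e2 : ∀ F : Pol n d k, σ (thO c F) = thO c (PA F) := fun F => congrArg (fun h : Pol n d k →+* OM n d k => h F) e1
    have e3 : (eval c0).comp PA = eval (conj A A' c0) := by
      refine MvPolynomial.ringHom_ext (fun t => ?_) (fun a => ?_)
      · show eval c0 (aeval g (C t : Pol n d k)) = eval (conj A A' c0) (C t)
        rw [MvPolynomial.aeval_C, MvPolynomial.eval_C]
        exact MvPolynomial.eval_C _
      · show eval c0 (aeval g (X a : Pol n d k)) = eval (conj A A' c0) (X a)
        rw [MvPolynomial.aeval_X, MvPolynomial.eval_X]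
        have h2 := congrFun (b5 (Pol n d k) k (eval c0) n d X
          (A.map (C : k →+* Pol n d k)) (A'.map (C : k →+* Pol n d k))) a
        have h3 : ∀ B : Matrix (Fin n) (Fin n) k, (B.map (C : k →+* Pol n d k)).map (eval c0) = B := by
          intro B
          ext i j
          exact MvPolynomial.eval_C _
        rw [h3, h3] at h2
        have h4 : (fun a => eval c0 (X a : Pol n d k)) = c0 := by
          funext a
          exact MvPolynomial.eval_X _
        rw [h4] at h2
        exact h2.symm
    have e4 : ∀ F : Pol n d k, eval c0 (PA F) = eval (conj A A' c0) F :=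
      fun F => congrArg (fun h : Pol n d k →+* k => h F) e3
    have h5 : a * thO c Q = thO c P := hrel
    have h6 : σ a * thO c (PA Q) = thO c (PA P) := by
      rw [← e2, ← e2, ← map_mul, h5]
    have h7 : thO c (P * PA Q) = thO c (C (A.det ^ b) * (PA P * Q)) := by
      have h8 : thO c (C (A.det ^ b)) = algebraMap k (OM n d k) A.det ^ b := by
        rw [← map_pow]
        exact MvPolynomial.aeval_C _ _
      rw [map_mul, map_mul, map_mul, h8, ← h5, ← h6]
      calc a * thO c Q * thO c (PA Q) =
          (algebraMap k (OM n d k) A.det ^ b * σ a) * thO c Q * thO c (PA Q) := by rw [h1]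
        _ = _ := by ring
    have h9 := congrArg (eval c0) (hinj h7)
    rw [map_mul, map_mul, map_mul, e4, e4, MvPolynomial.eval_C] at h9
    exact h9
  · rw [← thO_apply, ← thO_apply]
    exact hrel

end Pool.Agent.D0H98.SM
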